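import Pool.Agent.helper81.CX.Spec2

set_option autoImplicit false

open MeasureTheory Set Filter Topology
open scoped ENNReal
open Pool.Agent.helper81.CW

namespace Pool.Agent.CX

theorem CRS_int {α : Type} [MeasurableSpace α] {μ : Measure α} [IsProbabilityMeasure μ] {V : Type} [NormedAddCommGroup V] {F : α → V} (hF : AEStronglyMeasurable F μ) (C : ℝ) (hC : ∀ x, ‖F x‖ ≤ C) : Integrable F μ :=
  Integrable.of_bound hF C (Eventually.of_forall hC)

theorem CRS_rot {n : ℕ} (hP : IsProbabilityMeasure (gm n)) (hROM : ROM_stmt) {a b r : ℝ} (h : a ^ 2 + b ^ 2 = r ^ 2) (hr : 0 ≤ r) (F : E n → ℝ) (hF : Measurable F) :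
    ∫ p : E n × E n, F (a • p.1 + b • p.2) ∂((gm n).prod (gm n)) = ∫ v, F (r • v) ∂(gm n) := by
  rcases hr.eq_or_lt with h0 | h0
  · have ha : a = 0 := by nlinarith [sq_nonneg a, sq_nonneg b]
    have hb : b = 0 := by nlinarith [sq_nonneg a, sq_nonneg b]
    rw [ha, hb, ← h0]
    simp
  · have h1 : (a / r) ^ 2 + (b / r) ^ 2 = 1 := by
      rw [div_pow, div_pow, ← add_div, h, div_self (by positivity)]
    have hmp := (hROM n (a / r) (b / r) h1).2
    have hFm : Measurable fun v : E n => F (r • v) := hF.comp (measurable_const_smul r)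
    have h2 := integral_map (μ := (gm n).prod (gm n)) hmp.measurable.aemeasurable (f := fun v : E n => F (r • v)) hFm.aestronglyMeasurable
    rw [hmp.map_eq] at h2
    rw [h2]
    refine integral_congr_ae (Eventually.of_forall fun p => ?_)
    show F (a • p.1 + b • p.2) = F (r • ((a / r) • p.1 + (b / r) • p.2))
    rw [smul_add, smul_smul, smul_smul, mul_div_cancel₀ _ h0.ne', mul_div_cancel₀ _ h0.ne']

theorem CRS_mixm {n : ℕ} (t : ℝ) : Continuous fun p : E n × E n => mix t p.1 p.2 := by
  unfold mix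
  fun_prop

theorem CRS (hG1 : G1_stmt) (hROM : ROM_stmt) : CRS_stmt := by
  intro n f g s t hf hg hs0 hs1 ht0 ht1
  haveI hP : IsProbabilityMeasure (gm n) := (hG1 n).1
  obtain ⟨hfm, hfb⟩ := hf
  obtain ⟨hgm, hgb⟩ := hg
  set s' : ℝ := Real.sqrt (1 - s ^ 2) with hs'
  set t' : ℝ := Real.sqrt (1 - t ^ 2) with ht'
  set r : ℝ := Real.sqrt (1 - (s * t) ^ 2) with hr
  have hss : s' ^ 2 = 1 - s ^ 2 := Real.sq_sqrt (by nlinarith)
  have htt : t' ^ 2 = 1 - t ^ 2 := Real.sq_sqrt (by nlinarith)
  have hst1 : s * t ≤ 1 := mul_le_one₀ hs1 ht0 ht1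
  have hrr : r ^ 2 = 1 - (s * t) ^ 2 := Real.sq_sqrt (by nlinarith [mul_nonneg hs0 ht0])
  have hr0 : 0 ≤ r := Real.sqrt_nonneg _
  have hinb : ∀ a b : E n, ‖a‖ ≤ 2 → ‖b‖ ≤ 2 → ‖(inner ℝ a b : ℝ)‖ ≤ 4 := by
    intro a b ha hb
    refine (norm_inner_le_norm a b).trans ?_
    nlinarith [norm_nonneg a, norm_nonneg b]
  -- the left side
  have hleft : CR f g (s * t) = ∫ u, ∫ w, ∫ z, inner ℝ (f u) (g ((s * t) • u + ((-(t * s')) • w + t' • z))) ∂(gm n) ∂(gm n) ∂(gm n) := by
    unfold CR
    refine integral_congr_ae (Eventually.of_forall fun u => ?_)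
    show ∫ y, inner ℝ (f u) (g (mix (s * t) u y)) ∂(gm n) = _
    have hFm : Measurable fun v : E n => (inner ℝ (f u) (g ((s * t) • u + v)) : ℝ) :=
      Measurable.inner measurable_const (hgm.comp (measurable_const.add measurable_id))
    have h1 := CRS_rot hP hROM (a := -(t * s')) (b := t') (r := r) (by rw [hrr, htt]; nlinarith [hss]) hr0 (fun v : E n => (inner ℝ (f u) (g ((s * t) • u + v)) : ℝ)) hFm
    have h2 : ∫ y, inner ℝ (f u) (g (mix (s * t) u y)) ∂(gm n) = ∫ v, (inner ℝ (f u) (g ((s * t) • u + r • v)) : ℝ) ∂(gm n) := rfl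
    rw [h2, ← h1, integral_prod]
    refine CRS_int ?_ 4 fun p => hinb _ _ (hfb _) (hgb _)
    have hm : Measurable fun p : E n × E n => (inner ℝ (f u) (g ((s * t) • u + ((-(t * s')) • p.1 + t' • p.2))) : ℝ) :=
      hFm.comp (by fun_prop : Continuous fun p : E n × E n => (-(t * s')) • p.1 + t' • p.2).measurable
    exact hm.aestronglyMeasurable
  -- the right side
  set G : E n × E n → ℝ := fun p => ∫ z, inner ℝ (f (mix s p.1 p.2)) (g (mix t p.1 z)) ∂(gm n) with hG
  have hHm : StronglyMeasurable fun q : (E n × E n) × E n => (inner ℝ (f (mix s q.1.1 q.1.2)) (g (mix t q.1.1 q.2)) : ℝ) := by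
    refine Measurable.stronglyMeasurable (Measurable.inner (hfm.comp ?_) (hgm.comp ?_))
    · exact (CRS_mixm s).measurable.comp measurable_fst
    · exact (CRS_mixm t).measurable.comp ((measurable_fst.comp measurable_fst).prodMk measurable_snd)
  have hGm : StronglyMeasurable G := hHm.integral_prod_right'
  have hGb : ∀ p, ‖G p‖ ≤ 4 := by
    intro p
    refine (norm_integral_le_of_norm_le_const (Eventually.of_forall fun z => hinb _ _ (hfb _) (hgb _))).trans ?_
    simp
  have hGi : Integrable G ((gm n).prod (gm n)) := CRS_int hGm.aestronglyMeasurable 4 hGb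
  have hright : ∫ x, inner ℝ (PP f s x) (PP g t x) ∂(gm n) = ∫ p, G p ∂((gm n).prod (gm n)) := by
    rw [integral_prod _ hGi]
    refine integral_congr_ae (Eventually.of_forall fun x => ?_)
    show inner ℝ (PP f s x) (PP g t x) = ∫ y, G (x, y) ∂(gm n)
    have hfi : Integrable (fun y => f (mix s x y)) (gm n) :=
      CRS_int (hfm.comp ((CRS_mixm s).measurable.comp (measurable_const.prodMk measurable_id))).aestronglyMeasurable 2 fun y => hfb _
    have hgi : Integrable (fun z => g (mix t x z)) (gm n) :=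
      CRS_int (hgm.comp ((CRS_mixm t).measurable.comp (measurable_const.prodMk measurable_id))).aestronglyMeasurable 2 fun y => hgb _
    rw [real_inner_comm]
    have h1 : (inner ℝ (PP g t x) (PP f s x) : ℝ) = ∫ y, inner ℝ (PP g t x) (f (mix s x y)) ∂(gm n) := (integral_inner hfi (PP g t x)).symm
    rw [h1]
    refine integral_congr_ae (Eventually.of_forall fun y => ?_)
    show inner ℝ (PP g t x) (f (mix s x y)) = ∫ z, inner ℝ (f (mix s x y)) (g (mix t x z)) ∂(gm n)
    rw [real_inner_comm]
    exact (integral_inner hgi (f (mix s x y))).symm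
  have hmp := (hROM n s (-s') (by rw [neg_sq, hss]; ring)).1
  have hmap := integral_map (μ := (gm n).prod (gm n)) hmp.measurable.aemeasurable (f := G) (by rw [hmp.map_eq]; exact hGm.aestronglyMeasurable)
  rw [hmp.map_eq] at hmap
  rw [hleft, hright, hmap]
  have hGi2 : Integrable (fun p : E n × E n => G (s • p.1 + -s' • p.2, -(-s') • p.1 + s • p.2)) ((gm n).prod (gm n)) :=
    CRS_int (hGm.comp_measurable hmp.measurable).aestronglyMeasurable 4 fun p => hGb _
  rw [integral_prod _ hGi2]
  refine integral_congr_ae (Eventually.of_forall fun u => ?_)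
  refine integral_congr_ae (Eventually.of_forall fun w => ?_)
  refine integral_congr_ae (Eventually.of_forall fun z => ?_)
  show inner ℝ (f u) (g ((s * t) • u + ((-(t * s')) • w + t' • z))) =
    inner ℝ (f (mix s (s • u + -s' • w) (-(-s') • u + s • w))) (g (mix t (s • u + -s' • w) z))
  have e1 : mix s (s • u + -s' • w) (-(-s') • u + s • w) = u := by
    unfold mix
    rw [← hs', smul_add, smul_add, smul_smul, smul_smul, smul_smul, smul_smul]
    have h1 : s * s + s' * -(-s') = 1 := by nlinarith [hss]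
    have h2 : s * -s' + s' * s = 0 := by ring
    calc (s * s) • u + (s * -s') • w + ((s' * -(-s')) • u + (s' * s) • w) = (s * s + s' * -(-s')) • u + (s * -s' + s' * s) • w := by
          rw [add_smul, add_smul]
          abel
      _ = u := by rw [h1, h2, one_smul, zero_smul, add_zero]
  have e2 : mix t (s • u + -s' • w) z = (s * t) • u + ((-(t * s')) • w + t' • z) := by
    unfold mix
    rw [← ht', smul_add, smul_smul, smul_smul, mul_comm t s, add_assoc]
    congr 3
    ring
  rw [e1, e2]

end Pool.Agent.CX
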