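import Pool.Agent.helper81.CX.Spec2

/-! Project cx, row IN2: the symmetric part of bodies of constant width. -/

set_option autoImplicit false

open MeasureTheory Set Filter Topology
open scoped ENNReal Pointwise
open Pool.Agent.helper81.CW

namespace Pool.Agent.CX

theorem IN2_un_smul {n : ℕ} (x : E n) (t : ℝ) (ht : 0 < t) : un (t • x) = un x := by
  unfold un
  rw [norm_smul, Real.norm_eq_abs, abs_of_pos ht, smul_smul, mul_inv, mul_comm t⁻¹, mul_assoc, inv_mul_cancel₀ ht.ne', mul_one]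

theorem IN2_un_meas {n : ℕ} : Measurable (un : E n → E n) := by
  unfold un
  exact (measurable_norm.inv).smul measurable_id

theorem IN2_smul {n : ℕ} (x : E n) (hx : x ≠ 0) : ‖x‖ • un x = x := by
  unfold un
  rw [smul_smul, mul_inv_cancel₀ (norm_ne_zero_iff.mpr hx), one_smul]

/-- the geometric part -/
theorem IN2_core (hG1 : G1_stmt) (hCON : CON_stmt) (n : ℕ) (hn : 0 < n) (C : Set (E n))
    (hC : IsCompact C) (hconv : Convex ℝ C) (a : ℝ) (ha : 0 < a) (w : E n) (hw : w ∈ C)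
    (hS : gm n {x : E n | x ≠ 0 ∧ a • un x + w ∈ C ∧ -(a • un x) + w ∈ C}ᶜ ≤ ENNReal.ofReal (1 / 2)) :
    ENNReal.ofReal (a ^ n / 2) * volume (Metric.closedBall (0 : E n) 1) ≤
      volume {x : E n | w + x ∈ C ∧ w - x ∈ C} := by
  have hprob : IsProbabilityMeasure (gm n) := (hG1 n).1
  set S : Set (E n) := {x : E n | x ≠ 0 ∧ a • un x + w ∈ C ∧ -(a • un x) + w ∈ C} with hSdef
  have hSm : MeasurableSet S := by
    have h1 : Measurable (fun x : E n => a • un x + w) := (IN2_un_meas.const_smul a).add_const w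
    have h2 : Measurable (fun x : E n => -(a • un x) + w) := (IN2_un_meas.const_smul a).neg.add_const w
    have h0 : MeasurableSet {x : E n | x ≠ 0} := (measurableSet_singleton (0 : E n)).compl
    exact h0.inter ((h1 hC.isClosed.measurableSet).inter (h2 hC.isClosed.measurableSet))
  have hcone : ∀ x ∈ S, ∀ t : ℝ, 0 < t → t • x ∈ S := by
    intro x hx t ht
    obtain ⟨h0, h1, h2⟩ := hx
    refine ⟨smul_ne_zero ht.ne' h0, ?_, ?_⟩
    · show a • un (t • x) + w ∈ C
      rw [IN2_un_smul x t ht]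
      exact h1
    · show -(a • un (t • x)) + w ∈ C
      rw [IN2_un_smul x t ht]
      exact h2
  have hgm : ENNReal.ofReal (1 / 2) ≤ gm n S := by
    have h1 : gm n S + gm n Sᶜ = 1 := prob_add_prob_compl hSm
    have h2 : (1 : ℝ≥0∞) ≤ gm n S + ENNReal.ofReal (1 / 2) := by
      rw [← h1]
      gcongr
    have h3 : (1 : ℝ≥0∞) = ENNReal.ofReal (1 / 2) + ENNReal.ofReal (1 / 2) := by
      rw [← ENNReal.ofReal_add (by norm_num) (by norm_num)]
      norm_num
    rw [h3] at h2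
    exact (ENNReal.add_le_add_iff_right ENNReal.ofReal_ne_top).mp h2
  have hvA : ENNReal.ofReal (1 / 2) * volume (Metric.closedBall (0 : E n) 1) ≤
      volume (S ∩ Metric.closedBall (0 : E n) 1) := by
    rw [hCON n S hn hSm hcone]
    gcongr
  have hsub : a • (S ∩ Metric.closedBall (0 : E n) 1) ⊆ {x : E n | w + x ∈ C ∧ w - x ∈ C} := by
    rintro _ ⟨x, hx, rfl⟩
    have hx0 : x ≠ 0 := hx.1.1
    have hx1 : ‖x‖ ≤ 1 := mem_closedBall_zero_iff.mp hx.2
    have h1 : a • un x + w ∈ C := hx.1.2.1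
    have h1' : -(a • un x) + w ∈ C := hx.1.2.2
    have h2 := hconv hw h1 (by linarith : (0 : ℝ) ≤ 1 - ‖x‖) (norm_nonneg x) (by ring)
    have h2' := hconv hw h1' (by linarith : (0 : ℝ) ≤ 1 - ‖x‖) (norm_nonneg x) (by ring)
    have e1 : a • x = ‖x‖ • (a • un x) := by
      conv_lhs => rw [← IN2_smul x hx0]
      rw [smul_comm]
    have e : w + a • x = (1 - ‖x‖) • w + ‖x‖ • (a • un x + w) := by
      rw [e1, sub_smul, one_smul, smul_add]
      abel
    have e' : w - a • x = (1 - ‖x‖) • w + ‖x‖ • (-(a • un x) + w) := by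
      rw [e1, sub_smul, one_smul, smul_add, smul_neg]
      abel
    refine ⟨?_, ?_⟩
    · show w + a • x ∈ C
      rw [e]
      exact h2
    · show w - a • x ∈ C
      rw [e']
      exact h2'
  have hsc : volume (a • (S ∩ Metric.closedBall (0 : E n) 1)) =
      ENNReal.ofReal (a ^ n) * volume (S ∩ Metric.closedBall (0 : E n) 1) := by
    rw [Measure.addHaar_smul, finrank_euclideanSpace_fin, abs_of_pos (pow_pos ha n)]
  calc ENNReal.ofReal (a ^ n / 2) * volume (Metric.closedBall (0 : E n) 1)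
      = ENNReal.ofReal (a ^ n) * (ENNReal.ofReal (1 / 2) * volume (Metric.closedBall (0 : E n) 1)) := by
        rw [← mul_assoc, ← ENNReal.ofReal_mul (by positivity)]
        congr 2
        ring
    _ ≤ ENNReal.ofReal (a ^ n) * volume (S ∩ Metric.closedBall (0 : E n) 1) := by gcongr
    _ = volume (a • (S ∩ Metric.closedBall (0 : E n) 1)) := hsc.symm
    _ ≤ _ := measure_mono hsub

theorem IN2 (hG1 : G1_stmt) (hJ1 : J1_stmt) (hJ2 : J2_stmt) (hJ3 : J3_stmt) (hMPS : MPS_stmt)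
    (hCON : CON_stmt) (hCEN : CEN_stmt) (hSTB : STB_stmt) : IN2_stmt := by
  have hst := hSTB 0.39043 0 0.6527 0.23875 0.374 0.7489 (by norm_num) (by norm_num) (by norm_num) (by norm_num)
    (by norm_num) (by norm_num) (by norm_num) (by norm_num) (by norm_num) (by norm_num) (by norm_num) (by norm_num)
    (by unfold R0; norm_num) (1 / 2) (by norm_num)
  filter_upwards [hst, eventually_ge_atTop 1] with n hn hn1 C hC
  have hn0 : 0 < n := hn1
  obtain ⟨z, R, hR0, hR2, hzR⟩ := hJ1 n C hC.2.1 hC.1 (hJ2 n C 1 hC).1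
  obtain ⟨hC', hvol⟩ := hJ3 n C 1 1 z hC one_pos
  rw [mul_one] at hC'
  set C' : Set (E n) := (fun x => (1 : ℝ) • (x - z)) '' C with hC'def
  have hball : ∀ v ∈ C', ‖v‖ ^ 2 ≤ 1 / 2 := by
    rintro _ ⟨x, hx, rfl⟩
    show ‖(1 : ℝ) • (x - z)‖ ^ 2 ≤ 1 / 2
    rw [one_smul]
    exact (pow_le_pow_left₀ (norm_nonneg _) (hzR x hx) 2).trans hR2
  obtain ⟨M, hM, hMx⟩ := hMPS n C' hC' hball
  have hfar : ∀ x : E n, x ≠ 0 → ∀ v ∈ C', ‖v - (M x + (1 / 2 : ℝ) • un x)‖ ≤ 1 := fun x hx => (hMx x hx).2.2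
  have hin : ∀ x : E n, x ≠ 0 → M x + (1 / 2 : ℝ) • un x ∈ C' := fun x hx => (hMx x hx).1
  have hS := hn C' M hC' hball hM hfar
  simp only [zero_smul, add_zero, sub_zero] at hS
  have hw : ((0.6527 : ℝ)) • (∫ z, M z ∂(gm n)) ∈ C' :=
    hCEN n C' M hn1 hC' hball hM hin _ (by norm_num) (by norm_num)
  have hcore := IN2_core hG1 hCON n hn0 C' hC'.2.1 hC'.2.2.1 0.39043 (by norm_num) _ hw hS
  refine ⟨z + (0.6527 : ℝ) • (∫ z, M z ∂(gm n)), hcore.trans (measure_mono ?_)⟩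
  intro x hx
  obtain ⟨⟨y1, hy1, e1⟩, ⟨y2, hy2, e2⟩⟩ := hx
  simp only [one_smul] at e1 e2
  refine ⟨?_, ?_⟩
  · have : z + (0.6527 : ℝ) • (∫ z, M z ∂(gm n)) + x = y1 := by
      rw [add_assoc, ← e1]
      abel
    rw [this]
    exact hy1
  · have : z + (0.6527 : ℝ) • (∫ z, M z ∂(gm n)) - x = y2 := by
      rw [add_sub_assoc, ← e2]
      abel
    rw [this]
    exact hy2

end Pool.Agent.CX
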